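import Pool.Agent.W276.GE.Stm

/-!
PTS: the algebraic numbers of bounded degree and height lie in a finite set of polynomial size
(subtask GE-PTS).
-/

set_option autoImplicit false

namespace Pool.Agent.W32.GE

open Height NumberField Polynomial Module Pool.Agent.W276.GE

theorem norm_le_height (K : Type) [Field K] [NumberField K] (x : K) (φ : K →+* ℂ) :
    ‖φ x‖ ≤ mulHeight₁ x := by
  classical
  have h1 : ‖φ x‖ = InfinitePlace.mk φ x := (InfinitePlace.apply φ x).symm
  rw [h1, NumberField.mulHeight₁_eq]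
  set v := InfinitePlace.mk φ with hv
  have h2 : v x ≤ max (v x) 1 ^ v.mult :=
    (le_max_left _ _).trans (le_self_pow₀ (le_max_right _ _) InfinitePlace.mult_ne_zero)
  have h3 : max (v x) 1 ^ v.mult ≤ ∏ v : InfinitePlace K, max (v x) 1 ^ v.mult := by
    rw [← Finset.mul_prod_erase Finset.univ (fun v : InfinitePlace K => max (v x) 1 ^ v.mult)
      (Finset.mem_univ v)]
    have h4 : ∏ _w ∈ Finset.univ.erase v, (1 : ℝ) ≤
        ∏ w ∈ Finset.univ.erase v, max (w x) 1 ^ w.mult :=
      Finset.prod_le_prod (fun _ _ => zero_le_one)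
        (fun w _ => one_le_pow₀ (le_max_right _ _))
    rw [Finset.prod_const_one] at h4
    exact le_mul_of_one_le_right (by positivity) h4
  have h5 : 1 ≤ ∏ᶠ v : FinitePlace K, max (v x) 1 := one_le_finprod fun _ => le_max_right _ _
  have h6 : 0 ≤ ∏ v : InfinitePlace K, max (v x) 1 ^ v.mult :=
    Finset.prod_nonneg fun w _ => by positivity
  exact (h2.trans h3).trans (le_mul_of_one_le_right h6 h5)

/-- the polynomial with coefficients `g` -/
noncomputable def pol {D : ℕ} (g : Fin (D + 1) → ℤ) : ℂ[X] :=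
  ∑ i : Fin (D + 1), C (g i : ℂ) * X ^ (i : ℕ)

theorem pol_deg {D : ℕ} (g : Fin (D + 1) → ℤ) : (pol g).natDegree ≤ D := by
  apply natDegree_sum_le_of_forall_le
  intro i _
  refine (natDegree_C_mul_X_pow_le _ _).trans ?_
  have := i.2
  omega

open Classical in
/-- the set `A` -/
noncomputable def setA (D m b : ℕ) : Finset ℂ :=
  ((Finset.Icc 1 m) ×ˢ (Fintype.piFinset fun _ : Fin (D + 1) => Finset.Icc (-(b : ℤ)) b)).biUnion
    fun q => (pol q.2).roots.toFinset.image fun y => y / (q.1 : ℂ)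

theorem card_setA (D m b : ℕ) : (setA D m b).card ≤ m * (2 * b + 1) ^ (D + 1) * D := by
  classical
  unfold setA
  refine Finset.card_biUnion_le.trans ?_
  have h1 : ∀ q ∈ ((Finset.Icc 1 m) ×ˢ
      (Fintype.piFinset fun _ : Fin (D + 1) => Finset.Icc (-(b : ℤ)) b)),
      ((pol q.2).roots.toFinset.image fun y => y / (q.1 : ℂ)).card ≤ D := by
    intro q _
    refine Finset.card_image_le.trans ?_
    refine (Multiset.toFinset_card_le _).trans ?_
    exact (card_roots' _).trans (pol_deg _)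
  refine (Finset.sum_le_card_nsmul _ _ D h1).trans ?_
  rw [Finset.card_product, Fintype.card_piFinset, smul_eq_mul, Nat.card_Icc]
  simp only [Int.card_Icc, Finset.prod_const, Finset.card_univ, Fintype.card_fin]
  have h2 : ((b : ℤ) + 1 - -(b : ℤ)).toNat = 2 * b + 1 := by omega
  rw [h2, Nat.add_sub_cancel]

theorem mem_setA (D m b : ℕ) (K : Type) [Field K] [NumberField K] (x : K) (φ : K →+* ℂ) (n : ℕ)
    (hn : n ≠ 0) (hnm : n ≤ m) (p : ℤ[X]) (hp : p ≠ 0) (hd : p.natDegree ≤ D)
    (hr : aeval ((n : K) * x) p = 0) (hc : ∀ i, |p.coeff i| ≤ b) : φ x ∈ setA D m b := by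
  classical
  unfold setA
  rw [Finset.mem_biUnion]
  refine ⟨(n, fun i => p.coeff i), ?_, ?_⟩
  · rw [Finset.mem_product, Finset.mem_Icc, Fintype.mem_piFinset]
    refine ⟨⟨Nat.one_le_iff_ne_zero.2 hn, hnm⟩, fun i => ?_⟩
    rw [Finset.mem_Icc]
    exact abs_le.1 (hc i)
  · have hpol : pol (fun i : Fin (D + 1) => p.coeff i) = p.map (Int.castRingHom ℂ) := by
      ext j
      simp only [pol, finsetSum_coeff, coeff_C_mul, coeff_X_pow, coeff_map, eq_intCast]
      by_cases hj : j < D + 1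
      · rw [Finset.sum_eq_single (⟨j, hj⟩ : Fin (D + 1))]
        · simp
        · intro k _ hk
          rw [if_neg (fun h => hk (Fin.ext h.symm)), mul_zero]
        · intro h
          exact absurd (Finset.mem_univ _) h
      · rw [coeff_eq_zero_of_natDegree_lt (by omega), Int.cast_zero]
        apply Finset.sum_eq_zero
        intro k _
        have := k.2
        rw [if_neg (by omega), mul_zero]
    rw [Finset.mem_image]
    refine ⟨φ ((n : K) * x), ?_, ?_⟩
    · rw [Multiset.mem_toFinset, mem_roots', hpol]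
      refine ⟨?_, ?_⟩
      · rw [Ne, Polynomial.map_eq_zero_iff Int.cast_injective]
        exact hp
      · rw [IsRoot.def, eval_map]
        have h1 : φ (aeval ((n : K) * x) p) = 0 := by rw [hr, map_zero]
        rw [aeval_def, hom_eval₂] at h1
        have h2 : φ.comp (algebraMap ℤ K) = Int.castRingHom ℂ := RingHom.ext_int _ _
        rw [h2] at h1
        exact h1
    · show φ ((n : K) * x) / ((n : ℕ) : ℂ) = φ x
      rw [map_mul, map_natCast, mul_div_cancel_left₀]
      exact_mod_cast hn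

theorem pts : S_pts := by
  intro D
  refine ⟨1 + 2 * D * (D + 1), D * (3 * 2 ^ D) ^ (D + 1), fun X hX => ?_⟩
  set m : ℕ := ⌊X⌋₊ with hm
  set b : ℕ := ⌊(2 : ℝ) ^ D * X ^ (2 * D)⌋₊ with hb
  have hX0 : 0 ≤ X := by linarith
  have hXD : 1 ≤ X ^ (2 * D) := one_le_pow₀ hX
  have h2D : (1 : ℝ) ≤ 2 ^ D := one_le_pow₀ (by norm_num)
  have h2X : 1 ≤ (2 : ℝ) ^ D * X ^ (2 * D) := by nlinarith
  have hmX : (m : ℝ) ≤ X := Nat.floor_le hX0
  have hbX : (b : ℝ) ≤ (2 : ℝ) ^ D * X ^ (2 * D) := Nat.floor_le (by positivity)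
  refine ⟨setA D m b, ?_, ?_⟩
  · have h1 : ((setA D m b).card : ℝ) ≤ m * (2 * b + 1) ^ (D + 1) * D := by
      exact_mod_cast card_setA D m b
    refine h1.trans ?_
    have h2 : (2 * (b : ℝ) + 1) ≤ 3 * 2 ^ D * X ^ (2 * D) := by nlinarith
    calc (m : ℝ) * (2 * b + 1) ^ (D + 1) * D
        ≤ X * (3 * 2 ^ D * X ^ (2 * D)) ^ (D + 1) * D := by gcongr
      _ = D * (3 * 2 ^ D) ^ (D + 1) * X ^ (1 + 2 * D * (D + 1)) := by
          rw [mul_pow (3 * 2 ^ D : ℝ), ← pow_mul X, pow_add, pow_one]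
          ring
  · intro K _ _ hK x hx φ
    obtain ⟨n, hn0, hn1, hn2⟩ := NumberField.exists_nat_le_mulHeight₁ x
    have hnX : (n : ℝ) ≤ X := hn1.trans hx
    have hp := minpoly.isIntegrallyClosed_eq_field_fractions' ℚ hn2
    refine mem_setA D m b K x φ n hn0 (Nat.le_floor hnX) (minpoly ℤ ((n : K) * x))
      (minpoly.ne_zero hn2) ?_ (minpoly.aeval _ _) ?_
    · have h1 : (minpoly ℤ ((n : K) * x)).natDegree = (minpoly ℚ ((n : K) * x)).natDegree := by
        rw [hp, (minpoly.monic hn2).natDegree_map]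
      rw [h1]
      exact (minpoly.natDegree_le _).trans hK
    · intro i
      have h1 : ∀ ψ : K →+* ℂ, ‖ψ ((n : K) * x)‖ ≤ X ^ 2 := by
        intro ψ
        rw [map_mul, map_natCast, norm_mul, Complex.norm_natCast, sq]
        exact mul_le_mul hnX ((norm_le_height K x ψ).trans hx) (norm_nonneg _) hX0
      have h2 := NumberField.Embeddings.coeff_bdd_of_norm_le h1 i
      rw [hp, coeff_map, eq_intCast, Int.norm_cast_rat, Int.norm_eq_abs] at h2
      have h3 : max (X ^ 2) 1 = X ^ 2 := max_eq_left (one_le_pow₀ hX)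
      rw [h3] at h2
      have h4 : ((finrank ℚ K).choose (finrank ℚ K / 2) : ℝ) ≤ 2 ^ D := by
        have h5 : (finrank ℚ K).choose (finrank ℚ K / 2) ≤ 2 ^ finrank ℚ K :=
          Nat.choose_le_two_pow _ _
        have h6 : (2 : ℕ) ^ finrank ℚ K ≤ 2 ^ D := Nat.pow_le_pow_right (by norm_num) hK
        exact_mod_cast h5.trans h6
      have h7 : (X ^ 2) ^ finrank ℚ K ≤ X ^ (2 * D) := by
        rw [pow_mul]
        exact pow_le_pow_right₀ (one_le_pow₀ hX) hK
      have h8 : |((minpoly ℤ ((n : K) * x)).coeff i : ℝ)| ≤ 2 ^ D * X ^ (2 * D) := by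
        refine h2.trans ?_
        rw [mul_comm]
        exact mul_le_mul h4 h7 (by positivity) (by positivity)
      have h9 : (((minpoly ℤ ((n : K) * x)).coeff i).natAbs : ℝ) ≤ 2 ^ D * X ^ (2 * D) := by
        rw [Nat.cast_natAbs, Int.cast_abs]
        exact h8
      have h10 : ((minpoly ℤ ((n : K) * x)).coeff i).natAbs ≤ b := Nat.le_floor h9
      rw [Int.abs_eq_natAbs]
      exact_mod_cast h10

end Pool.Agent.W32.GE
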